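import Pool.Agent.H12.Flat2

/-! A complete flat indefinite metric on a closed manifold with almost every orbit of the geodesic
flow unbounded. -/

open scoped Manifold ContDiff Topology
open Set Filter MeasureTheory Real

namespace Pool.Agent.Results.MP_53eea8_gt.Counter
open Pool.Agent.H12.PR Pool.Agent.H12.Flat

lemma vel_lift (c : ℝ → E) (t : ℝ) (u : E) (hc : HasDerivAt c u t) :
    vel (E := E) (p ∘ c) t = ⟨p (c t), D p (c t) u⟩ := by
  have h1 : HasMFDerivAt 𝓘(ℝ, ℝ) 𝓘(ℝ, E) c t (ContinuousLinearMap.toSpanSingleton ℝ u) :=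
    hc.hasFDerivAt.hasMFDerivAt
  have h2 := ((p_md (c t)).hasMFDerivAt.comp t h1).mfderiv
  have h3 : (mfderiv 𝓘(ℝ, ℝ) 𝓘(ℝ, E) (p ∘ c) t : ℝ →L[ℝ] E) 1 = D p (c t) u := by
    have := congrArg (fun L : ℝ →L[ℝ] E => L 1) h2
    refine this.trans ?_
    show D p (c t) (ContinuousLinearMap.toSpanSingleton ℝ u 1) = _
    simp
  exact congrArg (fun w : E => (⟨p (c t), w⟩ : TangentBundle 𝓘(ℝ, E) M)) h3

lemma line_deriv (z u : E) (t : ℝ) : HasDerivAt (fun s : ℝ => z + s • u) u t := by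
  simpa using ((hasDerivAt_id t).smul_const u).const_add z

lemma line_geo (z u : E) : IsGeodesic gM (p ∘ fun s : ℝ => z + s • u) := by
  refine ⟨p_cov.continuous.comp (by fun_prop), fun e he t ht => ?_⟩
  obtain ⟨m, hm⟩ := locAff he ht
  have hc : ContinuousAt (fun s : ℝ => z + s • u) t := by fun_prop
  have h1 : (e ∘ p ∘ fun s : ℝ => z + s • u) =ᶠ[𝓝 t]
      fun s : ℝ => ((T ^ m 4) z + cst m) + s • (T ^ m 4) u := by
    filter_upwards [hc.eventually hm] with s hs
    simp only [Function.comp_apply]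
    rw [hs, map_add, map_smul]; abel
  refine ⟨ContDiffAt.congr_of_eventuallyEq (by fun_prop) h1, fun w => ?_⟩
  rw [chr_gM he, gLoc_gM he, h1.deriv.deriv_eq]
  have : deriv (fun s : ℝ => ((T ^ m 4) z + cst m) + s • (T ^ m 4) u) = fun _ => (T ^ m 4) u := by
    funext s; exact (line_deriv _ _ s).deriv
  rw [this]; simp

lemma geo_line (γ : ℝ → M) (hγ : IsGeodesic gM γ) (z : E) (hz : p z = γ 0) :
    ∃ u : E, γ = p ∘ fun s : ℝ => z + s • u := by
  obtain ⟨c, ⟨hc0, hc⟩, -⟩ := p_cov.existsUnique_continuousMap_lifts ⟨γ, hγ.1⟩ 0 z hz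
  have hc' : ∀ s, p (c s) = γ s := fun s => congrFun hc s
  have key : ∀ t, DifferentiableAt ℝ c t ∧ HasDerivAt (deriv c) 0 t := by
    intro t
    have he := chart_mem_atlas E (γ t)
    have ht := mem_chart_source E (γ t)
    set e := chartAt E (γ t)
    obtain ⟨h1, h2⟩ := hγ.2 e he t ht
    obtain ⟨m, hm⟩ := locAff he (show p (c t) ∈ e.source by rwa [hc'])
    have h3 : deriv (deriv (e ∘ γ)) t = 0 := by
      apply G0_nondeg
      intro w
      have := h2 w
      rwa [chr_gM he, gLoc_gM he, add_zero] at this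
    let S : E →L[ℝ] E := (T ^ m 4).symm
    have h4 : ⇑c =ᶠ[𝓝 t] fun s => S ((e ∘ γ) s - cst m) := by
      filter_upwards [c.continuous.continuousAt.eventually hm] with s hs
      simp only [Function.comp_apply, ← hc', hs, S]
      simp
    have h5 : ∀ᶠ s in 𝓝 t, DifferentiableAt ℝ (e ∘ γ) s :=
      (h1.eventually (by simp)).mono fun s hs => hs.differentiableAt (by norm_num)
    have h6 : deriv (fun s => S ((e ∘ γ) s - cst m)) =ᶠ[𝓝 t] fun s => S (deriv (e ∘ γ) s) := by
      filter_upwards [h5] with s hs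
      exact (S.hasFDerivAt.comp_hasDerivAt s (hs.hasDerivAt.sub_const (cst m))).deriv
    have h7 : DifferentiableAt ℝ (deriv (e ∘ γ)) t :=
      (h1.derivWithin (m := 1) (by norm_num)).differentiableAt one_ne_zero
    constructor
    · exact ((S.hasFDerivAt.comp_hasDerivAt t
        (h5.self_of_nhds.hasDerivAt.sub_const (cst m))).congr_of_eventuallyEq h4).differentiableAt
    · have h8 := S.hasFDerivAt.comp_hasDerivAt t h7.hasDerivAt
      rw [h3, map_zero] at h8
      exact h8.congr_of_eventuallyEq (h4.deriv.trans h6)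
  have h9 : ∀ t, deriv c t = deriv c 0 := fun t =>
    is_const_of_deriv_eq_zero (fun s => (key s).2.differentiableAt) (fun s => (key s).2.deriv) t 0
  refine ⟨deriv c 0, funext fun t => ?_⟩
  have h10 : ∀ s, HasDerivAt (fun s => c s - (z + s • deriv c 0)) 0 s := by
    intro s
    have := (key s).1.hasDerivAt.sub (line_deriv z (deriv c 0) s)
    rwa [h9 s, sub_self] at this
  have h11 := is_const_of_deriv_eq_zero (fun s => (h10 s).differentiableAt)
    (fun s => (h10 s).deriv) t 0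
  simp only [hc0, zero_smul, add_zero, sub_self, sub_eq_zero] at h11
  rw [Function.comp_apply, ← h11, hc']

noncomputable def F (y u : E) : ℝ := |goldenRatio * u 0 + u 1| * (goldenRatio ^ 2) ^ (-y 4)

lemma F_inv (m : Fin 5 → ℤ) (y u : E) : F ((T ^ m 4) y + cst m) ((T ^ m 4) u) = F y u := by
  have h0 : (0 : ℝ) < goldenRatio ^ 2 := pow_pos goldenRatio_pos 2
  unfold F
  rw [eig1, Pi.add_apply, T_four, abs_mul, abs_of_pos (zpow_pos h0 _), neg_add, rpow_add h0]
  have : (goldenRatio ^ 2) ^ (-cst m 4) = ((goldenRatio ^ 2) ^ m 4)⁻¹ := by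
    rw [rpow_neg h0.le, cst, rpow_intCast]
  rw [this]
  have := (zpow_pos h0 (m 4)).ne'
  field_simp

noncomputable def N (q : TangentBundle 𝓘(ℝ, E) M) : ℝ := F (chartAt E q.1 q.1) q.2

lemma N_cont : Continuous N := by
  rw [continuous_iff_continuousAt]
  intro q₀
  let τ := trivializationAt E (TangentSpace 𝓘(ℝ, E)) q₀.1
  have h0 : q₀ ∈ τ.source := by simp [τ]
  have h1 : ContinuousAt (fun q => (τ q).2) q₀ :=
    (τ.continuousOn.continuousAt (τ.open_source.mem_nhds h0)).snd
  have h2 : ContinuousAt (fun q : TangentBundle 𝓘(ℝ, E) M => chartAt E q₀.1 q.1) q₀ :=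
    ((chartAt E q₀.1).continuousAt (mem_chart_source E q₀.1)).comp
      (FiberBundle.continuous_proj E _).continuousAt
  have hF : Continuous (fun a : E × E => F a.1 a.2) := by
    unfold F
    refine Continuous.mul (by fun_prop) (Continuous.rpow continuous_const (by fun_prop) ?_)
    exact fun _ => Or.inl (pow_pos goldenRatio_pos 2).ne'
  refine (hF.continuousAt.comp (h2.prodMk h1)).congr ?_
  filter_upwards [τ.open_source.mem_nhds h0] with q hq
  have hq' : q.1 ∈ (chartAt E q₀.1).source := by simpa [τ] using hq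
  have h3 : p (chartAt E q.1 q.1) = q.1 := by
    have := (chartAt E q.1).left_inv (mem_chart_source E q.1)
    rwa [atlas_symm (chart_mem_atlas E q.1)] at this
  obtain ⟨m, hm⟩ := locAff (chart_mem_atlas E q₀.1) (z := chartAt E q.1 q.1) (by rwa [h3])
  have h4 : (τ q).2 = (T ^ m 4) q.2 := by
    simp only [τ, TangentBundle.trivializationAt_apply, mfld_simps, fderivWithin_univ]
    rw [atlas_symm (chart_mem_atlas E q.1)]
    exact congrArg (fun L : E →L[ℝ] E => L q.2) ((aff_deriv m _).congr_of_eventuallyEq hm).fderiv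
  have h5 : chartAt E q₀.1 q.1 = (T ^ m 4) (chartAt E q.1 q.1) + cst m := by
    have := hm.eq_of_nhds
    rwa [h3] at this
  simp only [Function.comp_apply, N]
  rw [h4, h5, F_inv]

lemma N_lift (z u : E) : N ⟨p z, D p z u⟩ = F z u := by
  obtain ⟨m, h1, h2⟩ := Dp_eq z
  simp only [N]
  rw [h1, h2, F_inv]

lemma unbdd (z u : E) (h4 : u 4 ≠ 0) (h1 : goldenRatio * u 0 + u 1 ≠ 0) (R : ℝ) :
    ∃ s : ℝ, R < F (z + s • u) u := by
  have p1 : (1 : ℝ) < goldenRatio ^ 2 := by nlinarith [one_lt_goldenRatio]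
  have ha := abs_pos.mpr h1
  obtain ⟨n, hn⟩ := pow_unbounded_of_one_lt (R / |goldenRatio * u 0 + u 1|) p1
  refine ⟨(-n - z 4) / u 4, ?_⟩
  have : -(z + ((-n - z 4) / u 4) • u) 4 = (n : ℝ) := by
    simp only [Pi.add_apply, Pi.smul_apply, smul_eq_mul]; field_simp; ring
  unfold F
  rw [this, rpow_natCast]
  rw [div_lt_iff₀ ha] at hn
  linarith

lemma null_lin (ℓ : E →ₗ[ℝ] ℝ) (v : E) (hv : ℓ v ≠ 0) : volume {u : E | ℓ u = 0} = 0 := by
  have : LinearMap.ker ℓ ≠ ⊤ := by
    intro h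
    exact hv (show v ∈ LinearMap.ker ℓ by rw [h]; trivial)
  exact Measure.addHaar_submodule volume _ this

section
variable {V : Type} [NormedAddCommGroup V] [NormedSpace ℝ V] {X : Type} [TopologicalSpace X]
  [ChartedSpace V X]

/-- The signature is indefinite at every point. -/
def Indefinite (g : Form V X) : Prop := ∀ x, ∃ u v, 0 < g x u u ∧ g x v v < 0

/-- Geodesic completeness. -/
def Complete (g : Form V X) : Prop :=
  ∀ v : TangentBundle 𝓘(ℝ, V) X, ∃ γ, IsGeodesic g γ ∧ vel γ 0 = v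

/-- The orbit of `v` under the geodesic flow is relatively compact in the tangent bundle. -/
def BddOrbit [IsManifold 𝓘(ℝ, V) ∞ X] (g : Form V X) (v : TangentBundle 𝓘(ℝ, V) X) : Prop :=
  ∃ γ, IsGeodesic g γ ∧ vel γ 0 = v ∧
    ∃ K : Set (TangentBundle 𝓘(ℝ, V) X), IsCompact K ∧ ∀ t, vel γ t ∈ K

/-- In every chart, the vectors with bounded orbit form a null set. -/
def AEUnbounded [MeasureSpace V] [IsManifold 𝓘(ℝ, V) ∞ X] (g : Form V X) : Prop :=
  ∀ e ∈ atlas V X,
    volume {q : V × V | q.1 ∈ e.target ∧ BddOrbit g ⟨e.symm q.1, push e q.1 q.2⟩} = 0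

end

theorem result : ∃ (n : ℕ) (M : Type) (_ : TopologicalSpace M) (_ : T2Space M)
    (_ : CompactSpace M) (_ : ConnectedSpace M) (_ : ChartedSpace (Fin n → ℝ) M)
    (_ : IsManifold 𝓘(ℝ, Fin n → ℝ) ∞ M) (g : Form (Fin n → ℝ) M),
    IsMetric g ∧ Indefinite g ∧ Complete g ∧ AEUnbounded g := by
  refine ⟨5, M, inferInstance, inferInstance, inferInstance, inferInstance, inferInstance,
    inferInstance, gM, gM_metric, fun x => ?_, ?_, fun e he => ?_⟩
  · refine ⟨(![0, 0, 0, 0, 1] : E), (![1, 0, -1, 0, 0] : E), ?_, ?_⟩ <;>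
      rw [gM_apply, G0_apply] <;> simp
  · rintro ⟨x, v⟩
    obtain ⟨z, rfl⟩ := p_surj x
    obtain ⟨m, -, hm⟩ := Dp_eq z
    refine ⟨_, line_geo z ((T ^ m 4).symm v), ?_⟩
    rw [vel_lift _ 0 _ (line_deriv _ _ 0)]
    have key : ∀ z' : E, z' = z → (⟨p z', D p z' ((T ^ m 4).symm v)⟩ : TangentBundle 𝓘(ℝ, E) M)
        = ⟨p z, v⟩ := by
      rintro _ rfl
      rw [hm, ContinuousLinearEquiv.apply_symm_apply]
    exact key _ (by simp)
  · have hn : volume ((univ : Set E) ×ˢ ({u : E | u 4 = 0} ∪ {u | goldenRatio * u 0 + u 1 = 0}))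
        = 0 := by
      rw [Measure.volume_eq_prod, Measure.prod_prod]
      apply mul_eq_zero_of_right
      apply measure_union_null
      · exact null_lin (LinearMap.proj 4) (Pi.single 4 1) (by simp)
      · exact null_lin (goldenRatio • LinearMap.proj 0 + LinearMap.proj 1) (Pi.single 1 1)
          (by simp)
    refine measure_mono_null ?_ hn
    rintro ⟨y, u⟩ ⟨-, γ, hγ, h0, K, hK, hm⟩
    refine ⟨trivial, ?_⟩
    by_contra hc
    simp only [mem_union, mem_ofPred_eq, not_or] at hc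
    have hy : p y = γ 0 := by
      have := congrArg Bundle.TotalSpace.proj h0
      rw [← atlas_symm he]; exact this.symm
    obtain ⟨u', rfl⟩ := geo_line γ hγ y hy
    rw [vel_lift _ 0 _ (line_deriv _ _ 0)] at h0
    have h1 : D p (y + (0 : ℝ) • u') u' = D e.symm y u :=
      congrArg (fun q : TangentBundle 𝓘(ℝ, E) M => (q.2 : E)) h0
    obtain ⟨m, -, hm'⟩ := Dp_eq y
    rw [zero_smul, add_zero, atlas_symm he, hm', hm'] at h1
    obtain rfl : u' = u := (T ^ m 4).injective h1
    obtain ⟨R, hR⟩ := (hK.image N_cont).bddAbove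
    obtain ⟨s, hs⟩ := unbdd y u' hc.1 hc.2 R
    have h2 := hR ⟨_, hm s, rfl⟩
    rw [vel_lift _ s _ (line_deriv _ _ s), N_lift] at h2
    linarith

end Pool.Agent.Results.MP_53eea8_gt.Counter
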